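import Pool.Agent.W580.SH.StmA

/-!
# Project SH: part SHA-AC1
-/

set_option autoImplicit false

namespace Pool.Agent.W762.SH.AC1

open Finset Pool.Agent.W580.SH

/-- minors of integer vectors are integers -/
theorem mn_int {R : Type} {k : ℕ} (r : Fin k → R) (c : Fin k → (R → ℝ))
    (h : ∀ j s, ∃ n : ℤ, c j s = n) : ∃ n : ℤ, mn r c = n := by
  choose m hm using h
  refine ⟨(Matrix.of fun a b => m b (r a) : Matrix (Fin k) (Fin k) ℤ).det, ?_⟩
  have h1 : (Matrix.of fun a b => c b (r a) : Matrix (Fin k) (Fin k) ℝ) =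
      (Int.castRingHom ℝ).mapMatrix (Matrix.of fun a b => m b (r a)) := by
    ext a b
    simp [hm]
  unfold mn
  rw [h1, ← RingHom.map_det]
  rfl

/-- integer vectors with small `ℓ¹` norm -/
theorem comb {k : ℕ} (n : Fin k → ℤ) (h : ∑ j, |n j| ≤ 2) :
    (∀ l, n l = 0) ∨ (∃ i, |n i| ≤ 2 ∧ ∀ l, l ≠ i → n l = 0) ∨
      ∃ i j, i ≠ j ∧ |n i| = 1 ∧ |n j| = 1 ∧ ∀ l, l ≠ i → l ≠ j → n l = 0 := by
  by_cases h0 : ∀ l, n l = 0
  · exact Or.inl h0
  right
  push Not at h0
  obtain ⟨i, hi⟩ := h0
  have h1 : ∀ l, |n l| ≤ 2 := fun l =>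
    (Finset.single_le_sum (f := fun j => |n j|) (fun j _ => abs_nonneg _) (mem_univ l)).trans h
  by_cases h2 : ∀ l, l ≠ i → n l = 0
  · exact Or.inl ⟨i, h1 i, h2⟩
  right
  push Not at h2
  obtain ⟨j, hji, hj⟩ := h2
  have h3 : |n i| + |n j| ≤ 2 := by
    have := Finset.sum_le_sum_of_subset_of_nonneg (f := fun j => |n j|)
      (Finset.subset_univ ({i, j} : Finset (Fin k))) (fun j _ _ => abs_nonneg _)
    rw [Finset.sum_pair hji.symm] at this
    exact this.trans h
  have hi' : 1 ≤ |n i| := Int.one_le_abs hi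
  have hj' : 1 ≤ |n j| := Int.one_le_abs hj
  refine ⟨i, j, hji.symm, by omega, by omega, fun l hli hlj => ?_⟩
  have h4 : |n l| + (|n i| + |n j|) ≤ 2 := by
    have := Finset.sum_le_sum_of_subset_of_nonneg (f := fun j => |n j|)
      (Finset.subset_univ ({l, i, j} : Finset (Fin k))) (fun j _ _ => abs_nonneg _)
    rw [Finset.sum_insert (by simp [hli, hlj]), Finset.sum_pair hji.symm] at this
    exact this.trans h
  have h5 : |n l| ≤ 0 := by omega
  exact abs_eq_zero.1 (le_antisymm h5 (abs_nonneg _))

theorem main (hC : S_CRAM) (hH : S_HALF) (hS : S_STARB) : S_AC1 := by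
  intro R _ _ D t hD hSt k ρ b hb hmn hspan
  obtain ⟨hC1, hC2⟩ := hC
  have hm : mn ρ b = 1 ∨ mn ρ b = -1 := by
    rcases eq_or_eq_neg_of_abs_eq hmn with h | h
    · exact Or.inl h
    · exact Or.inr h
  have hupd : ∀ y ∈ D, ∀ j l, Function.update b j y l ∈ (D : Set (R → ℝ)) := by
    intro y hy j l
    rcases eq_or_ne l j with rfl | hl
    · rw [Function.update_self]; exact hy
    · rw [Function.update_of_ne hl]; exact hb l
  have hupd2 : ∀ y ∈ D, ∀ y' ∈ D, ∀ i j l,
      Function.update (Function.update b i y) j y' l ∈ (D : Set (R → ℝ)) := by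
    intro y hy y' hy' i j l
    rcases eq_or_ne l j with rfl | hl
    · rw [Function.update_self]; exact hy'
    · rw [Function.update_of_ne hl]; exact hupd y hy i l
  have hev : ∀ (y : R → ℝ) (β : Fin k → ℝ), y = ∑ j, β j • b j →
      ∀ s, y s = ∑ i, β i * b i s := by
    intro y β h s
    rw [h, Finset.sum_apply]
    rfl
  -- half integral coefficients
  have hA : ∀ y ∈ D, ∃ n : Fin k → ℤ, (y = ∑ j, ((n j : ℝ) / 2) • b j) ∧ ∑ j, |n j| ≤ 2 := by
    intro y hy
    obtain ⟨β, hβ⟩ := hspan y hy
    have h1 : ∀ j, ∃ n : ℤ, 2 * β j = n := by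
      intro j
      obtain ⟨n, hn⟩ := hH R D t hD k ρ (Function.update b j y) (hupd y hy j)
      rw [hC1 R k ρ b y β j (fun a => hev y β hβ (ρ a))] at hn
      rcases hm with h | h
      · exact ⟨n, by rw [h] at hn; linarith⟩
      · exact ⟨-n, by rw [h] at hn; push_cast; linarith⟩
    choose n hn using h1
    have h2 := hS R D hSt k ρ b y β hb hy (fun a => hev y β hβ (ρ a))
    rw [hmn, one_mul] at h2
    have hβn : ∀ j, β j = (n j : ℝ) / 2 := fun j => by rw [← hn j]; ring
    refine ⟨n, ?_, ?_⟩
    · rw [hβ]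
      exact Finset.sum_congr rfl fun j _ => by rw [hβn j]
    · have h3 : (∑ j, |n j| : ℝ) = 2 * ∑ j, |β j| := by
        rw [Finset.mul_sum]
        refine Finset.sum_congr rfl fun j _ => ?_
        rw [← hn j, abs_mul, abs_two]
      have h4 : ((∑ j, |n j| : ℤ) : ℝ) ≤ 2 := by
        push_cast
        rw [h3]
        linarith
      exact_mod_cast h4
  have hcase1 : ∀ (y : R → ℝ) (n : Fin k → ℤ) (i : Fin k), y = ∑ j, ((n j : ℝ) / 2) • b j →
      (∀ l, l ≠ i → n l = 0) → y = ((n i : ℝ) / 2) • b i := by
    intro y n i hy h0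
    rw [hy]
    refine Finset.sum_eq_single i (fun l _ hl => ?_) (fun h => absurd (mem_univ _) h)
    rw [h0 l hl]; simp
  have hcase2 : ∀ (y : R → ℝ) (n : Fin k → ℤ) (i j : Fin k), i ≠ j →
      y = ∑ j, ((n j : ℝ) / 2) • b j →
      (∀ l, l ≠ i → l ≠ j → n l = 0) → y = ((n i : ℝ) / 2) • b i + ((n j : ℝ) / 2) • b j := by
    intro y n i j hij hy h0
    rw [hy]
    refine Fintype.sum_eq_add i j hij (fun l hl => ?_)
    rw [h0 l hl.1 hl.2]; simp
  by_cases ht : ∀ r, t r = 0
  · -- integral case
    have hint : ∀ x ∈ D, ∀ s, ∃ n : ℤ, x s = n := by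
      intro x hx s
      obtain ⟨n, hn⟩ := hD.2 x hx s
      exact ⟨n, by rw [hn, ht s, zero_add]⟩
    have hsub : D ⊆ insert 0 (univ.image b ∪ univ.image (fun j => -b j)) := by
      intro y hy
      obtain ⟨n, hn, hn2⟩ := hA y hy
      have heven : ∀ j, ∃ m : ℤ, n j = 2 * m := by
        intro j
        obtain ⟨m, hm'⟩ := mn_int ρ (Function.update b j y)
          (fun l s => hint _ (hupd y hy j l) s)
        rw [hC1 R k ρ b y (fun j => (n j : ℝ) / 2) j (fun a => hev y _ hn (ρ a))] at hm'
        rcases hm with h | h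
        · refine ⟨m, ?_⟩
          have : (n j : ℝ) = 2 * m := by rw [h] at hm'; linarith
          exact_mod_cast this
        · refine ⟨-m, ?_⟩
          have : (n j : ℝ) = 2 * (-m) := by rw [h] at hm'; linarith
          exact_mod_cast this
      rcases comb n hn2 with h0 | ⟨i, hi, h0⟩ | ⟨i, j, hij, hi, hj, h0⟩
      · rw [mem_insert]
        left
        rw [hn]
        exact Finset.sum_eq_zero fun j _ => by rw [h0 j]; simp
      · have h1 := hcase1 y n i hn h0
        obtain ⟨m, hm'⟩ := heven i
        have h2 := abs_le.1 hi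
        have h3 : m = 0 ∨ m = 1 ∨ m = -1 := by omega
        rw [mem_insert, mem_union]
        rcases h3 with h3 | h3 | h3
        · left
          rw [h1, hm', h3]; simp
        · right; left
          rw [mem_image]
          exact ⟨i, mem_univ _, by rw [h1, hm', h3]; simp⟩
        · right; right
          rw [mem_image]
          exact ⟨i, mem_univ _, by rw [h1, hm', h3]; simp⟩
      · exfalso
        obtain ⟨m, hm'⟩ := heven i
        rcases abs_eq (by norm_num : (0 : ℤ) ≤ 1) |>.1 hi with h | h <;> omega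
    have h1 := Finset.card_le_card hsub
    have h2 := Finset.card_insert_le (0 : R → ℝ) (univ.image b ∪ univ.image (fun j => -b j))
    have h3 := Finset.card_union_le (univ.image b) (univ.image (fun j => -b j))
    have h4 : (univ.image b).card ≤ k := by
      simpa using Finset.card_image_le (s := (univ : Finset (Fin k))) (f := b)
    have h5 : (univ.image (fun j => -b j)).card ≤ k := by
      simpa using Finset.card_image_le (s := (univ : Finset (Fin k))) (f := fun j => -b j)
    omega
  · -- half integral case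
    push Not at ht
    obtain ⟨s, hs⟩ := ht
    have hs2 : t s = 1 / 2 := (hD.1 s).resolve_left hs
    have hhalf : ∀ x ∈ D, ∃ n : ℤ, 2 * x s = 1 + 2 * n := by
      intro x hx
      obtain ⟨n, hn⟩ := hD.2 x hx s
      exact ⟨n, by rw [hn, hs2]; ring⟩
    set E : Finset (R → ℝ) := univ.image b ∪ univ.image (fun j => -b j) with hE
    have hEc : E.card ≤ 2 * k := by
      have h3 := Finset.card_union_le (univ.image b) (univ.image (fun j => -b j))
      rw [← hE] at h3
      have h4 : (univ.image b).card ≤ k := by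
        simpa using Finset.card_image_le (s := (univ : Finset (Fin k))) (f := b)
      have h5 : (univ.image (fun j => -b j)).card ≤ k := by
        simpa using Finset.card_image_le (s := (univ : Finset (Fin k))) (f := fun j => -b j)
      omega
    have htype : ∀ y ∈ D, y ∉ E → ∃ (n : Fin k → ℤ) (i j : Fin k),
        (y = ∑ j, ((n j : ℝ) / 2) • b j) ∧ i ≠ j ∧ |n i| = 1 ∧ |n j| = 1 ∧
          ∀ l, l ≠ i → l ≠ j → n l = 0 := by
      intro y hy hyE
      obtain ⟨n, hn, hn2⟩ := hA y hy
      obtain ⟨p, hp⟩ := hhalf y hy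
      rcases comb n hn2 with h0 | ⟨i, hi, h0⟩ | ⟨i, j, hij, hi, hj, h0⟩
      · exfalso
        have h1 : y = 0 := by
          rw [hn]
          exact Finset.sum_eq_zero fun j _ => by rw [h0 j]; simp
        rw [h1] at hp
        have h2 : (0 : ℝ) = 1 + 2 * (p : ℝ) := by simpa using hp
        have h3 : (0 : ℤ) = 1 + 2 * p := by exact_mod_cast h2
        omega
      · exfalso
        have h1 := hcase1 y n i hn h0
        obtain ⟨q, hq⟩ := hhalf (b i) (hb i)
        have h2 : 2 * (1 + 2 * p) = n i * (1 + 2 * q) := by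
          have : 2 * (1 + 2 * (p : ℝ)) = n i * (1 + 2 * q) := by
            rw [← hp, ← hq, h1]
            simp only [Pi.smul_apply, smul_eq_mul]
            ring
          exact_mod_cast this
        have h3 := abs_le.1 hi
        have h4 : n i = -2 ∨ n i = -1 ∨ n i = 0 ∨ n i = 1 ∨ n i = 2 := by omega
        rcases h4 with h4 | h4 | h4 | h4 | h4
        · apply hyE
          rw [hE, mem_union]
          right
          rw [mem_image]
          refine ⟨i, mem_univ _, ?_⟩
          rw [h1, h4]
          norm_num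
        · rw [h4] at h2; omega
        · rw [h4] at h2; omega
        · rw [h4] at h2; omega
        · apply hyE
          rw [hE, mem_union]
          left
          rw [mem_image]
          refine ⟨i, mem_univ _, ?_⟩
          rw [h1, h4]
          norm_num
      · exact ⟨n, i, j, hn, hij, hi, hj, h0⟩
    have hpair : ∀ y ∈ D, y ∉ E → ∀ y' ∈ D, y' ∉ E → y' = y ∨ y' = -y := by
      intro y hy hyE y' hy' hyE'
      obtain ⟨n, i, j, hn, hij, hi, hj, h0⟩ := htype y hy hyE
      obtain ⟨n', i', j', hn', hij', hi', hj', h0'⟩ := htype y' hy' hyE'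
      have hdet : ∀ a c : Fin k, a ≠ c → ∃ m : ℤ, n a * n' c - n c * n' a = 2 * m := by
        intro a c hac
        obtain ⟨m, hm'⟩ := hH R D t hD k ρ _ (hupd2 y hy y' hy' a c)
        rw [hC2 R k ρ b y y' (fun j => (n j : ℝ) / 2) (fun j => (n' j : ℝ) / 2) a c hac
          (fun l => hev y _ hn (ρ l)) (fun l => hev y' _ hn' (ρ l))] at hm'
        rcases hm with h | h
        · refine ⟨m, ?_⟩
          have : (n a * n' c - n c * n' a : ℝ) = 2 * m := by rw [h] at hm'; linarith
          exact_mod_cast this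
        · refine ⟨-m, ?_⟩
          have : (n a * n' c - n c * n' a : ℝ) = 2 * (-m) := by rw [h] at hm'; linarith
          exact_mod_cast this
      have hpm : ∀ z : ℤ, |z| = 1 → z = 1 ∨ z = -1 := fun z hz =>
        (abs_eq (by norm_num : (0 : ℤ) ≤ 1)).1 hz
      -- the supports agree
      have hsupp : ∀ a, |n a| = 1 → a = i' ∨ a = j' := by
        intro a ha
        by_contra hcon
        push Not at hcon
        obtain ⟨m, hm'⟩ := hdet a i' hcon.1
        rw [h0' a hcon.1 hcon.2, mul_zero, sub_zero] at hm'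
        rcases hpm _ ha with h1 | h1 <;> rcases hpm _ hi' with h2 | h2 <;>
          rw [h1, h2] at hm' <;> omega
      have key : ∀ i j : Fin k, i ≠ j → |n i| = 1 → |n j| = 1 →
          (y = ((n i : ℝ) / 2) • b i + ((n j : ℝ) / 2) • b j) →
          (y' = ((n' i : ℝ) / 2) • b i + ((n' j : ℝ) / 2) • b j) →
          |n' i| = 1 → |n' j| = 1 → y' = y ∨ y' = -y := by
        intro i j hij hi hj hy1 hy1' hi' hj'
        obtain ⟨p, hp⟩ := hhalf y hy
        obtain ⟨p', hp'⟩ := hhalf y' hy'
        obtain ⟨q, hq⟩ := hhalf (b i) (hb i)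
        obtain ⟨q', hq'⟩ := hhalf (b j) (hb j)
        have e1 : 2 * (1 + 2 * p) = n i * (1 + 2 * q) + n j * (1 + 2 * q') := by
          have : 2 * (1 + 2 * (p : ℝ)) = n i * (1 + 2 * q) + n j * (1 + 2 * q') := by
            rw [← hp, ← hq, ← hq', hy1]
            simp only [Pi.smul_apply, Pi.add_apply, smul_eq_mul]
            ring
          exact_mod_cast this
        have e2 : 2 * (1 + 2 * p') = n' i * (1 + 2 * q) + n' j * (1 + 2 * q') := by
          have : 2 * (1 + 2 * (p' : ℝ)) = n' i * (1 + 2 * q) + n' j * (1 + 2 * q') := by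
            rw [← hp', ← hq, ← hq', hy1']
            simp only [Pi.smul_apply, Pi.add_apply, smul_eq_mul]
            ring
          exact_mod_cast this
        rcases hpm _ hi with h1 | h1 <;> rcases hpm _ hj with h2 | h2 <;>
          rcases hpm _ hi' with h3 | h3 <;> rcases hpm _ hj' with h4 | h4 <;>
          rw [h1, h2] at e1 <;> rw [h3, h4] at e2 <;> rw [h1, h2] at hy1 <;>
          rw [h3, h4] at hy1' <;>
          first
          | (exfalso; omega)
          | (left; rw [hy1, hy1']; done)
          | (right; rw [hy1, hy1']; ext x; simp only [Pi.add_apply, Pi.smul_apply, Pi.neg_apply,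
              smul_eq_mul]; push_cast; ring)
      rcases hsupp i hi with rfl | rfl
      · rcases hsupp j hj with rfl | rfl
        · exact absurd rfl hij
        · exact key i j hij hi hj (hcase2 y n i j hij hn h0) (hcase2 y' n' i j hij hn' h0') hi' hj'
      · rcases hsupp j hj with rfl | rfl
        · exact key i j hij hi hj (hcase2 y n i j hij hn h0)
            (hcase2 y' n' i j hij hn' (fun l h1 h2 => h0' l h2 h1)) hj' hi'
        · exact absurd rfl hij
    by_cases hne : ∃ y ∈ D, y ∉ E
    · obtain ⟨y, hy, hyE⟩ := hne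
      have hsub : D ⊆ E ∪ {y, -y} := by
        intro z hz
        rw [mem_union]
        by_cases hzE : z ∈ E
        · exact Or.inl hzE
        · right
          rcases hpair y hy hyE z hz hzE with h | h
          · rw [h]; simp
          · rw [h]; simp
      have h1 := Finset.card_le_card hsub
      have h2 := Finset.card_union_le E ({y, -y} : Finset (R → ℝ))
      have h3 : ({y, -y} : Finset (R → ℝ)).card ≤ 2 := Finset.card_le_two
      omega
    · push Not at hne
      have h1 := Finset.card_le_card (show D ⊆ E from hne)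
      omega

end Pool.Agent.W762.SH.AC1
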